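import Pool.Agent.H491R4.AF7

/-! # The product of Birch and Swinnerton-Dyer for almost all curves `y² = x³ + a x + n` with `n` in automatic sets

Here `a` is a fixed integer and `n` runs through an arbitrary automatic set `S` (the set of the integers whose digits in a
base `b` are accepted by a finite automaton) of more than polylogarithmic size; such sets may have as few as `N ^ c` elements
below `N`, with arbitrarily small `c > 0`.

For all `x` between a power of `log N` and a fixed power of `N` the product `P(x)` of `(N_p + 1) / p` over the primes of good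
reduction up to `x` is of size `(log x) ^ (1 / 2 + o(1))` for almost all these curves: its logarithm has the normal order
`(log log x) / 2`, with fluctuations of order at most `(log log x) ^ (1 / 2)`. So for almost all curves the asymptotic
`C (log x) ^ r` of Q1 (with an integer `r`) is not visible for these `x`. And for almost all of these curves the bound
`x ^ (1 + δ)` for the sum of `a_p log p` over the good primes `p ≤ x`, which the Riemann hypothesis gives for large `x`, holds
for all `x` up to a power of `N`.

Definitions used: in `Pool.Agent.H491R4.AF` (file `Pool/Agent/H491R4/AF2.lean`): `acc b M N E`: the number of the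
integers `v < N` accepted by the automaton `M` (reading the digits of `v` in base `b`, the least significant digit first)
with the property `E`; `AlmostS b M N κ c τ P`: the proportion of the `v < N` accepted by `M` for which `c + κ v` does not
have the property `P` is at most `τ`; in `Pool.Agent.W263.BSD` (file `Pool/Agent/W263/BSD/Defs.lean`):
`pointCount a n p` is the number of the solutions of `y² = x³ + a x + n` modulo `p`, `GoodPrime a n p`: `p` is a prime which
does not divide `2 (4 a³ + 27 n²)`. -/

set_option autoImplicit false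

namespace Pool.Agent.Results.MP_ad1693_nt.AutomaticFamilies

open Finset Filter Pool.Agent.R459.Eq Pool.Agent.H491R4.AF
open Pool.Agent.W263.BSD (GoodPrime pointCount)
open Pool.Agent.R459.Bsd (GG TT)

open Classical in
/-- The product of `(N_p + 1) / p` over the primes `p ≤ x` of good reduction of `y² = x³ + a x + n`; `N_p + 1` is the number of
the points over `F_p`, including the point at infinity. -/
noncomputable def product (a n : ℤ) (x : ℕ) : ℝ :=
  ∏ p ∈ (range (x + 1)).filter (fun p => GoodPrime a n p), ((pointCount a n p : ℝ) + 1) / p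

open Classical in
/-- The sum of `a_p log p`, `a_p = p - N_p`, over the primes `p ≤ x` of good reduction of `y² = x³ + a x + n`. -/
noncomputable def traceSum (a n : ℤ) (x : ℕ) : ℝ :=
  ∑ p ∈ (range (x + 1)).filter (fun p => GoodPrime a n p), ((p : ℝ) - pointCount a n p) * Real.log p

lemma product_eq (a n : ℤ) (x : ℕ) : Real.log (product a n x) = ∑ p ∈ pri x, GG a p n := by
  classical
  unfold product
  rw [Real.log_prod]
  · have e : ∑ p ∈ pri x, GG a p n = ∑ p ∈ (range (x + 1)).filter (fun p => GoodPrime a n p), GG a p n := by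
      symm
      apply sum_subset
      · intro p hp
        rw [mem_filter, mem_range] at hp
        rw [mem_pri]
        exact ⟨by omega, hp.2.1⟩
      · intro p hp hnp
        rw [mem_pri] at hp
        unfold GG
        rw [if_neg]
        intro hg
        apply hnp
        rw [mem_filter, mem_range]
        exact ⟨by omega, hg⟩
    rw [e]
    apply sum_congr rfl
    intro p hp
    unfold GG
    rw [if_pos (mem_filter.1 hp).2]
  · intro p hp
    rw [mem_filter] at hp
    have : (0 : ℝ) < p := by exact_mod_cast hp.2.1.pos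
    positivity

lemma traceSum_eq (a n : ℤ) (x : ℕ) : traceSum a n x = ∑ p ∈ pri x, TT a p n * Real.log p := by
  classical
  unfold traceSum
  have e : ∑ p ∈ pri x, TT a p n * Real.log p = ∑ p ∈ (range (x + 1)).filter (fun p => GoodPrime a n p), TT a p n * Real.log p := by
    symm
    apply sum_subset
    · intro p hp
      rw [mem_filter, mem_range] at hp
      rw [mem_pri]
      exact ⟨by omega, hp.2.1⟩
    · intro p hp hnp
      rw [mem_pri] at hp
      unfold TT
      rw [if_neg, zero_mul]
      intro hg
      apply hnp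
      rw [mem_filter, mem_range]
      exact ⟨by omega, hg⟩
  rw [e]
  apply sum_congr rfl
  intro p hp
  unfold TT
  rw [if_pos (mem_filter.1 hp).2]

/-- **The product of Birch and Swinnerton-Dyer for almost all curves `y² = x³ + a x + n`, `n` in automatic sets.** Let `S` be
the set of the integers `v ≥ 0` whose digits in base `b ≥ 2` are accepted by a finite automaton `M`, and suppose that `S` has
more than polylogarithmic size: for every `k` there are infinitely many `N` such that more than `(log N) ^ k` elements of `S`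
are smaller than `N`. There are `W` and `e` such that for all `κ ≠ 0` the following holds.

(1) For every `a ≠ 0` there are `C` and `N₀` such that for all `N ≥ N₀`, all `c`, all `x` with `(log N) ^ e ≤ x` and `x ^ W ≤ N` and
all `l > 0`: almost all the `n = c + κ v` with `v ∈ S`, `v < N`, up to a proportion of at most `C / l²`, satisfy
`|log P(x) - (log log x) / 2| ≤ l (log log x) ^ (1 / 2)`.

(2) Let `0 < δ ≤ 1 / 2`. For all sufficiently large `X`, all `N`, all `c` and ALL integers `a`: almost all the `n = c + κ v`
with `v ∈ S`, `v < N`, up to a proportion of at most `(log N) ^ e X ^ (- δ)`, have the property that the sum of `a_p log p`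
over the primes `p ≤ x` of good reduction is at most `x ^ (1 + δ)` in absolute value for ALL `x ≥ X` with `x ^ W ≤ N`. -/
theorem result {σ : Type} [Fintype σ] (b : ℕ) (hb : 2 ≤ b) (M : DFA ℕ σ)
    (hS : ∀ k : ℕ, ∃ᶠ N : ℕ in atTop, Real.log N ^ k < (acc b M N (fun _ => True) : ℝ)) : ∃ W e : ℕ, 1 ≤ W ∧
    ∀ κ : ℤ, κ ≠ 0 →
    (∀ a : ℤ, a ≠ 0 → ∃ (C : ℝ) (N₀ : ℕ), 0 < C ∧ ∀ N : ℕ, N₀ ≤ N → ∀ c : ℤ, ∀ x : ℕ, Real.log N ^ e ≤ x → x ^ W ≤ N →
      ∀ l : ℝ, 0 < l → AlmostS b M N κ c (C / l ^ 2) (fun n =>
        |Real.log (product a n x) - Real.log (Real.log x) / 2| ≤ l * √(Real.log (Real.log x)))) ∧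
    (∀ δ : ℝ, 0 < δ → δ ≤ 1 / 2 → ∃ X₀ : ℕ, ∀ X : ℕ, X₀ ≤ X → ∀ N : ℕ, ∀ c a : ℤ,
      AlmostS b M N κ c (Real.log N ^ e * (X : ℝ) ^ (-δ)) (fun n => ∀ x : ℕ, X ≤ x → x ^ W ≤ N →
        |traceSum a n x| ≤ (x : ℝ) ^ (1 + δ))) := by
  classical
  obtain ⟨W₁, e₁, N₁, hW₁, K₁⟩ := log_aut b hb M hS
  obtain ⟨W₂, e₂, hW₂, K₂⟩ := tr_aut b hb M hS
  have hlog : ∃ N₂ : ℕ, ∀ N : ℕ, N₂ ≤ N → 1 ≤ Real.log N := by
    obtain ⟨R, hR⟩ := exists_nat_ge (Real.exp 1)
    refine ⟨R + 1, fun N hN => ?_⟩
    rw [Real.le_log_iff_exp_le (by exact_mod_cast (by omega : 0 < N))]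
    exact hR.trans (by exact_mod_cast (by omega : R ≤ N))
  obtain ⟨N₂, hN₂⟩ := hlog
  refine ⟨W₁ + W₂, e₁ + e₂, by omega, fun κ hκ => ⟨fun a ha => ?_, fun δ hδ hδ1 => ?_⟩⟩
  · obtain ⟨C, hC, J⟩ := K₁ κ hκ a ha
    refine ⟨C, N₁, hC, fun N hN c x hx hxW l hl => ?_⟩
    obtain ⟨h1, h2⟩ := J N hN
    have hx1 : 1 ≤ x := by
      have h3 : (1 : ℝ) ≤ x := (one_le_pow₀ h1).trans hx
      exact_mod_cast h3
    refine AlmostS.mono (h2 c x ((pow_le_pow_right₀ h1 (by omega)).trans hx) ((Nat.pow_le_pow_right hx1 (by omega)).trans hxW) l hl) ?_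
    intro n hn
    rw [product_eq]
    exact hn
  · obtain ⟨X₀, J⟩ := K₂ κ hκ δ hδ hδ1
    refine ⟨X₀ + N₂ + 1, fun X hX N c a => ?_⟩
    by_cases hN : N₂ ≤ N
    · have h1 := hN₂ N hN
      refine AlmostS.le (τ := Real.log N ^ e₂ * (X : ℝ) ^ (-δ)) (AlmostS.mono (J X (by omega) N c a) ?_) ?_
      · intro n hn x hXx hxW
        rw [traceSum_eq]
        exact hn x hXx ((Nat.pow_le_pow_right (by omega) (by omega)).trans hxW)
      · exact mul_le_mul_of_nonneg_right (pow_le_pow_right₀ h1 (by omega)) (by positivity)
    · apply AlmostS.of_all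
      · have : 0 ≤ Real.log N := Real.log_natCast_nonneg N
        positivity
      · intro v x hx1 hx2
        exfalso
        have h1 : x ≤ x ^ (W₁ + W₂) := Nat.le_self_pow (by omega) x
        omega

end Pool.Agent.Results.MP_ad1693_nt.AutomaticFamilies
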