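import Pool.Agent.H491R4.TW3

/-! # The sums of `a_p log p` for almost all quadratic twists of any curve by the members of automatic sets

By Kuo-Murty and Conrad (see the problem file) the asymptotic formula of Q1 holds for an elliptic curve if and only if the sum
of `(α_p ^ k + β_p ^ k) log p` over the `p ^ k ≤ x` is `o(x log x)`; the terms with `k ≥ 2` contribute `O(x)`, so this is a
condition on the sum of `a_p log p` over the primes `p ≤ x`.

The quadratic twist `E_D` of the curve `y² = x³ + a x + b` by `D` is `y² = x³ + a D² x + b D³`. Here `D` runs through an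
arbitrary automatic set `S` (the set of the integers whose digits in a base `B` are accepted by a finite automaton) of more
than polylogarithmic size; such sets may have as few as `N ^ c` elements below `N`, with arbitrarily small `c > 0`.

For all `x` between a power of `log N` and a fixed power of `N`, for ALL curves `y² = x³ + a x + b` and for all weights `g`
with `|g(p)| ≤ 1`, the sum of `g(p) a_p log p` over the primes `p ≤ x` of good reduction of `E_D` is at most
`l x (log x) ^ (1 / 2)` in absolute value for all these `D` up to a proportion of `C / l²`; here `C` depends neither on the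
curve nor on the weights.

Definitions used: in `Pool.Agent.H491R4.AF` (file `Pool/Agent/H491R4/AF2.lean`): `acc B M N E`: the number of the
integers `v < N` accepted by the automaton `M` (reading the digits of `v` in base `B`, the least significant digit first)
with the property `E`; `AlmostS B M N κ c τ P`: the proportion of the `v < N` accepted by `M` for which `c + κ v` does not
have the property `P` is at most `τ`; in `Pool.Agent.W263.BSD` (file `Pool/Agent/W263/BSD/Defs.lean`):
`pointCount a b p` is the number of the solutions of `y² = x³ + a x + b` modulo `p`, `GoodPrime a b p`: `p` is a prime which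
does not divide `2 (4 a³ + 27 b²)`. -/

set_option autoImplicit false

namespace Pool.Agent.Results.MP_ad1693_nt.AutomaticTwistSums

open Finset Filter Pool.Agent.H491R4.AF
open Pool.Agent.R459.Eq (pri mem_pri)
open Pool.Agent.W263.BSD (GoodPrime pointCount)
open Pool.Agent.R459.Bsd (TT)
open Pool.Agent.H491R4.TW (HT)

open Classical in
/-- The sum of `g(p) a_p log p`, `a_p = p - N_p`, over the primes `p ≤ x` of good reduction of `y² = x³ + a x + b`. -/
noncomputable def traceSum (g : ℕ → ℝ) (a b : ℤ) (x : ℕ) : ℝ :=
  ∑ p ∈ (range (x + 1)).filter (fun p => GoodPrime a b p), g p * ((p : ℝ) - pointCount a b p) * Real.log p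

lemma traceSum_eq (g : ℕ → ℝ) (a b D : ℤ) (x : ℕ) :
    traceSum g (a * D ^ 2) (b * D ^ 3) x = ∑ p ∈ pri x, g p * HT a b p D * Real.log p := by
  classical
  unfold traceSum
  have e : ∑ p ∈ pri x, g p * HT a b p D * Real.log p =
      ∑ p ∈ (range (x + 1)).filter (fun p => GoodPrime (a * D ^ 2) (b * D ^ 3) p), g p * HT a b p D * Real.log p := by
    symm
    apply sum_subset
    · intro p hp
      rw [mem_filter, mem_range] at hp
      rw [mem_pri]
      exact ⟨by omega, hp.2.1⟩
    · intro p hp hnp
      rw [mem_pri] at hp
      unfold HT TT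
      rw [if_neg, mul_zero, zero_mul]
      intro hg
      apply hnp
      rw [mem_filter, mem_range]
      exact ⟨by omega, hg⟩
  rw [e]
  apply sum_congr rfl
  intro p hp
  unfold HT TT
  rw [if_pos (mem_filter.1 hp).2]

/-- **The sums of `a_p log p` for almost all quadratic twists by the members of automatic sets.** Let `S` be the set of the
integers `v ≥ 0` whose digits in base `B ≥ 2` are accepted by a finite automaton `M`, and suppose that `S` has more than
polylogarithmic size: for every `k` there are infinitely many `N` such that more than `(log N) ^ k` elements of `S` are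
smaller than `N`. There are `W`, `e` and `N₀` such that for all `κ ≠ 0` there is `C > 0` with the following property.

For all `N ≥ N₀`, ALL integers `a`, `b`, `c`, ALL weights `g` with `|g(p)| ≤ 1`, all `x` with `(log N) ^ e ≤ x` and `x ^ W ≤ N`
and all `l > 0`: almost all the `D = c + κ v` with `v ∈ S`, `v < N`, up to a proportion of at most `C / l²`, have the property
that the sum of `g(p) a_p log p` over the primes `p ≤ x` of good reduction of the twist `E_D : y² = x³ + a D² x + b D³` is at
most `l x (log x) ^ (1 / 2)` in absolute value. -/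
theorem result {σ : Type} [Fintype σ] (B : ℕ) (hB : 2 ≤ B) (M : DFA ℕ σ)
    (hS : ∀ k : ℕ, ∃ᶠ N : ℕ in atTop, Real.log N ^ k < (acc B M N (fun _ => True) : ℝ)) : ∃ W e N₀ : ℕ, 1 ≤ W ∧
    ∀ κ : ℤ, κ ≠ 0 → ∃ C : ℝ, 0 < C ∧ ∀ N : ℕ, N₀ ≤ N → ∀ a b c : ℤ, ∀ g : ℕ → ℝ, (∀ p, |g p| ≤ 1) → ∀ x : ℕ,
      Real.log N ^ e ≤ x → x ^ W ≤ N → ∀ l : ℝ, 0 < l →
      AlmostS B M N κ c (C / l ^ 2) (fun D => |traceSum g (a * D ^ 2) (b * D ^ 3) x| ≤ l * (x * √(Real.log x))) := by
  classical
  obtain ⟨W, e, N₀, hW, K⟩ := Pool.Agent.H491R4.TW.tws_aut B hB M hS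
  refine ⟨W, e, N₀, hW, fun κ hκ => ?_⟩
  obtain ⟨C, hC, J⟩ := K κ hκ
  refine ⟨C, hC, fun N hN a b c g hg x hx hxW l hl => ?_⟩
  refine AlmostS.mono (J N hN a b c g hg x hx hxW l hl) ?_
  intro D hD
  rw [traceSum_eq]
  exact hD

end Pool.Agent.Results.MP_ad1693_nt.AutomaticTwistSums
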