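import Pool.Agent.R459.Bsd4

/-! # The product of Birch and Swinnerton-Dyer for almost all curves `y² = x³ + a x + n` with `n` in sparse families given by
digits

Here `a` is a fixed integer and `n` runs through families with as few as `N ^ c` of the integers up to `N = b ^ k`, with any
`c > 0`: the rearrangements of `k` digits, the palindromes, the integers with independent pairs of mirror digits (in
particular all integers whose `i`-th digit lies in an arbitrary set `D i` with at least two digits, for all `i`).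

For all `x` up to a fixed power of `N` the product `P(x)` of `N_p / p` over the primes of good reduction up to `x` is of size
`(log x) ^ (1 / 2 + o(1))` for almost all these curves: its logarithm has the normal order `(log log x) / 2`, with
fluctuations of order at most `(log log x) ^ (1 / 2)`. So for almost all curves the asymptotic `C (log x) ^ r` of Q1 (with `r = 0`
or `r = 1`, as expected for almost all curves) is not visible for `x ≤ N ^ c`. And for almost all of these curves the bound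
`x ^ (1 + δ)` for the sum of `a_p log p` over the good primes `p ≤ x`, which the Riemann hypothesis gives for large `x`, holds
for all `x` up to a power of `N`.

Definitions used: in `Pool.Agent.R459.Eq` (file `Pool/Agent/R459/Eq6.lean`): `Almost b k κ c η τ P`: almost all the
members `c + κ v` of the three families have the property `P`, up to a proportion of at most `τ`; in
`Pool.Agent.W263.BSD` (file `Pool/Agent/W263/BSD/Defs.lean`): `pointCount a n p` is the number of the solutions of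
`y² = x³ + a x + n` modulo `p`, `GoodPrime a n p`: `p` is a prime which does not divide `2 (4 a³ + 27 n²)`. -/

set_option autoImplicit false

namespace Pool.Agent.Results.MP_ad1693_nt.DigitFamilies

open Finset Pool.Agent.R459.Eq
open Pool.Agent.W263.BSD (GoodPrime pointCount)
open Pool.Agent.R459.Bsd (GG TT log_ms tr_all)

open Classical in
/-- The product of `(N_p + 1) / p` over the primes `p ≤ x` of good reduction of `y² = x³ + a x + n`; `N_p + 1` is the number of
the points over `F_p`, including the point at infinity. -/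
noncomputable def product (a n : ℤ) (x : ℕ) : ℝ :=
  ∏ p ∈ (range (x + 1)).filter (fun p => GoodPrime a n p), ((pointCount a n p : ℝ) + 1) / p

open Classical in
/-- The sum of `a_p log p`, `a_p = p - N_p`, over the primes `p ≤ x` of good reduction of `y² = x³ + a x + n`. -/
noncomputable def traceSum (a n : ℤ) (x : ℕ) : ℝ :=
  ∑ p ∈ (range (x + 1)).filter (fun p => GoodPrime a n p), ((p : ℝ) - pointCount a n p) * Real.log p

lemma product_eq (a n : ℤ) (x : ℕ) : Real.log (product a n x) = ∑ p ∈ pri x, GG a p n := by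
  classical
  unfold product
  rw [Real.log_prod]
  · have e : ∑ p ∈ pri x, GG a p n = ∑ p ∈ (range (x + 1)).filter (fun p => GoodPrime a n p), GG a p n := by
      symm
      apply sum_subset
      · intro p hp
        rw [mem_filter, mem_range] at hp
        rw [mem_pri]
        exact ⟨by omega, hp.2.1⟩
      · intro p hp hnp
        rw [mem_pri] at hp
        unfold GG
        rw [if_neg]
        intro hg
        apply hnp
        rw [mem_filter, mem_range]
        exact ⟨by omega, hg⟩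
    rw [e]
    apply sum_congr rfl
    intro p hp
    unfold GG
    rw [if_pos (mem_filter.1 hp).2]
  · intro p hp
    rw [mem_filter] at hp
    have : (0 : ℝ) < p := by exact_mod_cast hp.2.1.pos
    positivity

lemma traceSum_eq (a n : ℤ) (x : ℕ) : traceSum a n x = ∑ p ∈ pri x, TT a p n * Real.log p := by
  classical
  unfold traceSum
  have e : ∑ p ∈ pri x, TT a p n * Real.log p = ∑ p ∈ (range (x + 1)).filter (fun p => GoodPrime a n p), TT a p n * Real.log p := by
    symm
    apply sum_subset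
    · intro p hp
      rw [mem_filter, mem_range] at hp
      rw [mem_pri]
      exact ⟨by omega, hp.2.1⟩
    · intro p hp hnp
      rw [mem_pri] at hp
      unfold TT
      rw [if_neg, zero_mul]
      intro hg
      apply hnp
      rw [mem_filter, mem_range]
      exact ⟨by omega, hg⟩
  rw [e]
  apply sum_congr rfl
  intro p hp
  unfold TT
  rw [if_pos (mem_filter.1 hp).2]

/-- **The product of Birch and Swinnerton-Dyer for almost all curves `y² = x³ + a x + n`, `n` in digit families.** Let `b ≥ 2`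
and `η > 0`. There is `W` such that for all `κ ≠ 0` the following holds.

(1) For every `a ≠ 0` there is `C` such that for all `k ≥ 2`, all `c`, all `x ≥ max (16, b)` with `x ^ W ≤ b ^ k` and all `l > 0`:
almost all the members `n = c + κ v` of the families of integers with `k` digits described by `Almost`, up to a
proportion of at most `C / l²`, satisfy `|log P(x) - (log log x) / 2| ≤ l (log log x) ^ (1 / 2)`.

(2) Let `0 < δ ≤ 1 / 2`. For all sufficiently large `X`, all `k ≥ 2`, all `c` and ALL integers `a`: almost all the members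
`n = c + κ v` of the families, up to a proportion of at most `X ^ (- δ)`, have the property that the sum of `a_p log p` over the
primes `p ≤ x` of good reduction is at most `x ^ (1 + δ)` in absolute value for ALL `x ≥ X` with `x ^ W ≤ b ^ k`. -/
theorem result (b : ℕ) (hb : 2 ≤ b) (η : ℝ) (hη : 0 < η) : ∃ W : ℕ, 1 ≤ W ∧ ∀ κ : ℤ, κ ≠ 0 →
    (∀ a : ℤ, a ≠ 0 → ∃ C : ℝ, 0 < C ∧ ∀ k : ℕ, 2 ≤ k → ∀ c : ℤ, ∀ x : ℕ, 16 ≤ x → b ≤ x → x ^ W ≤ b ^ k → ∀ l : ℝ, 0 < l →
      Almost b k κ c η (C / l ^ 2) (fun n =>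
        |Real.log (product a n x) - Real.log (Real.log x) / 2| ≤ l * √(Real.log (Real.log x)))) ∧
    (∀ δ : ℝ, 0 < δ → δ ≤ 1 / 2 → ∃ X₀ : ℕ, ∀ X : ℕ, X₀ ≤ X → ∀ k : ℕ, 2 ≤ k → ∀ c a : ℤ,
      Almost b k κ c η ((X : ℝ) ^ (-δ)) (fun n => ∀ x : ℕ, X ≤ x → x ^ W ≤ b ^ k → |traceSum a n x| ≤ (x : ℝ) ^ (1 + δ))) := by
  classical
  obtain ⟨A₁, A₂, γ₁, γ₂, h1, h2, h3, h4, H⟩ := almost_of b hb η hη
  obtain ⟨W₁, hW₁, K₁⟩ := log_ms b hb A₁ γ₁ h1 h2
  obtain ⟨W₂, hW₂, K₂⟩ := log_ms b hb A₂ γ₂ h3 h4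
  obtain ⟨W₃, hW₃, K₃⟩ := tr_all b hb A₁ γ₁ h1 h2
  obtain ⟨W₄, hW₄, K₄⟩ := tr_all b hb A₂ γ₂ h3 h4
  obtain ⟨W, hW⟩ : ∃ W, W = W₁ + W₂ + W₃ + W₄ := ⟨_, rfl⟩
  refine ⟨W, by omega, fun κ hκ => ⟨fun a ha => ?_, fun δ hδ hδ1 => ?_⟩⟩
  · obtain ⟨C₁, hC₁, J₁⟩ := K₁ (Pool.Agent.TH872.An.GG b) κ (Pool.Agent.TH872.An.GG_pos b hb) hκ a ha
    obtain ⟨C₂, hC₂, J₂⟩ := K₂ (b ^ 4).factorial κ (Nat.factorial_pos _) hκ a ha
    refine ⟨C₁ + C₂, by positivity, fun k hk c x hx16 hbx hxW l hl => ?_⟩
    refine H k hk κ c _ _ (by positivity) fun F₀ A' γ hFA ι Ω w v hdec E hE hbad => ?_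
    obtain ⟨ℓ, hℓ⟩ : ∃ ℓ, ℓ = Real.log (Real.log x) := ⟨_, rfl⟩
    have hℓ0 : 0 < ℓ := by
      rw [hℓ]
      apply Real.log_pos
      rw [Real.lt_log_iff_exp_lt (by exact_mod_cast (by omega : 0 < x))]
      have h5 := Real.exp_one_lt_d9
      have h6 : (16 : ℝ) ≤ x := by exact_mod_cast hx16
      linarith
    have hfin : ∀ C' : ℝ, C' ≤ C₁ + C₂ → ∑ i ∈ Ω, w i * (∑ p ∈ pri x, GG a p (v i) - Real.log (Real.log x) / 2) ^ 2 ≤
        C' * Real.log (Real.log x) → ∑ i ∈ E, w i ≤ (C₁ + C₂) / l ^ 2 := by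
      intro C' hC' hms
      rw [← hℓ] at hms
      have h5 : ∀ i ∈ E, l ^ 2 * ℓ ≤ (∑ p ∈ pri x, GG a p (v i) - ℓ / 2) ^ 2 := by
        intro i hi
        have h6 := hbad i hi
        rw [product_eq, ← hℓ] at h6
        push Not at h6
        have h7 : (l * √ℓ) ^ 2 ≤ |∑ p ∈ pri x, GG a p (v i) - ℓ / 2| ^ 2 := pow_le_pow_left₀ (by positivity) h6.le 2
        rw [mul_pow, Real.sq_sqrt hℓ0.le, sq_abs] at h7
        exact h7
      have h6 : (∑ i ∈ E, w i) * (l ^ 2 * ℓ) ≤ (C₁ + C₂) * ℓ := by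
        rw [sum_mul]
        calc ∑ i ∈ E, w i * (l ^ 2 * ℓ) ≤ ∑ i ∈ E, w i * (∑ p ∈ pri x, GG a p (v i) - ℓ / 2) ^ 2 :=
              sum_le_sum fun i hi => mul_le_mul_of_nonneg_left (h5 i hi) (hdec.nonneg i (hE hi))
          _ ≤ ∑ i ∈ Ω, w i * (∑ p ∈ pri x, GG a p (v i) - ℓ / 2) ^ 2 :=
              sum_le_sum_of_subset_of_nonneg hE fun i hi _ => mul_nonneg (hdec.nonneg i hi) (sq_nonneg _)
          _ ≤ C' * ℓ := hms
          _ ≤ _ := mul_le_mul_of_nonneg_right hC' hℓ0.le
      rw [le_div_iff₀ (by positivity)]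
      rw [← mul_assoc] at h6
      exact le_of_mul_le_mul_right h6 hℓ0
    have hpow : ∀ W' ≤ W, x ^ W' ≤ b ^ k := fun W' hW' => (Nat.pow_le_pow_right (by omega) hW').trans hxW
    rcases hFA with h | h
    · simp only [Prod.mk.injEq] at h
      obtain ⟨rfl, rfl, rfl⟩ := h
      exact hfin C₁ (by linarith) (J₁ k x hx16 hbx (hpow _ (by omega)) ι Ω w v hdec)
    · simp only [Prod.mk.injEq] at h
      obtain ⟨rfl, rfl, rfl⟩ := h
      exact hfin C₂ (by linarith) (J₂ k x hx16 hbx (hpow _ (by omega)) ι Ω w v hdec)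
  · obtain ⟨X₁, J₁⟩ := K₃ (Pool.Agent.TH872.An.GG b) κ (Pool.Agent.TH872.An.GG_pos b hb) hκ δ hδ hδ1
    obtain ⟨X₂, J₂⟩ := K₄ (b ^ 4).factorial κ (Nat.factorial_pos _) hκ δ hδ hδ1
    refine ⟨X₁ + X₂ + 1, fun X hX k hk c a => ?_⟩
    refine H k hk κ c _ _ (by positivity) fun F₀ A' γ hFA ι Ω w v hdec E hE hbad => ?_
    have hbad' : ∀ W' ≤ W, ∀ i ∈ E, ∃ x : ℕ, X ≤ x ∧ x ^ W' ≤ b ^ k ∧
          (x : ℝ) ^ (1 + δ) < |∑ p ∈ pri x, TT a p (v i) * Real.log p| := by
      intro W' hW' i hi
      have h5 := hbad i hi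
      push Not at h5
      obtain ⟨x, hXx, hxW, hu⟩ := h5
      rw [traceSum_eq] at hu
      exact ⟨x, hXx, (Nat.pow_le_pow_right (by omega) hW').trans hxW, hu⟩
    rcases hFA with h | h
    · simp only [Prod.mk.injEq] at h
      obtain ⟨rfl, rfl, rfl⟩ := h
      exact J₁ X (by omega) k ι Ω w v hdec a E hE (hbad' _ (by omega))
    · simp only [Prod.mk.injEq] at h
      obtain ⟨rfl, rfl, rfl⟩ := h
      exact J₂ X (by omega) k ι Ω w v hdec a E hE (hbad' _ (by omega))

end Pool.Agent.Results.MP_ad1693_nt.DigitFamilies
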