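import Pool.Agent.R429.DM.OneSd2
import Pool.Agent.R429.DM.UpE
import Pool.Agent.TH941.Newform

/-!
# The size of the original product of Birch and Swinnerton-Dyer is decided by one-sided bounds

Let `E : y² = x³ + a x + b` be an elliptic curve over `ℚ`, `a, b ∈ ℤ`, let `F` be the entire continuation of
its incomplete `L`-series, `f` its newform, `N_p` the number of affine points modulo `p`, so that
`#E(𝔽_p) = N_p + 1`, and let

`P(X) = ∏_{p ≤ X, p ∤ 2Δ} #E(𝔽_p)/p`, `S_K(X) = ∑_{p ≤ X, p ∤ 2Δ} K (log p / log X) log (#E(𝔽_p)/p)`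

(`S_1 = log P`). Let `y ≥ 0`. For every elliptic curve:

1. (the product from above) `F` has no zeros with `Re s > 1 + y` if and only if `P(X) ≤ exp (X^(y + ε))` for
  every `ε > 0` and ALMOST all large `X`, and this holds then for all large `X`. No lower bound for `P` and nothing
  about real zeros is assumed. Hence if the Riemann hypothesis fails for `E` and `θ = sup Re ρ - 1 > 0`, then
  `P(X) > exp (X^(θ - ε))` on a set of positive measure beyond every point: the conjecture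
  `P(X) ∼ C (log X)^r` does not fail by a small amount, and does not fail only by `P` becoming small.
2. (the product from below) `F` has no zeros with `Re s > 1 + y` if and only if it has no REAL zeros `> 1 + y` and
  `P(X) ≥ exp (-X^(y + ε))` for every `ε > 0` and almost all (then all) large `X`.
3. (all weights) Let `K` be bounded and measurable, let `β ∈ (0, 1]` be the top of its support. If
  `S_K(X) ≤ X^(βy + ε)` for every `ε > 0` and almost all large `X`, and `K ≥ 0` near `β` or `F` has no real zeros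
  `> 1 + y`, then `F` has no zeros with `Re s > 1 + y`. The same if `S_K(X) ≥ -X^(βy + ε)` and `F` has no real
  zeros `> 1 + y`. For weights of bounded variation both are equivalences, and the exponent `βy` is exact.

Proof: see `Pool.Agent.Results.MP_ae0bd0_nt.OneSidedGrowth`, where the case `y = 0` is used for the order of `F`.
Landau's theorem, applied to `A e^{αT} - S_K(e^T)` plus the contributions of the finitely many real zeros, shows
that there are no real zeros and that the transform of `S_K(e^T)` converges absolutely; then the jump of the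
multiplicative convolution of `K` with `F'/F` across a ray excludes the other zeros. The upper bounds come from the
truncated explicit formula (`Pool.Agent.R429.DM.UpE`).
-/

set_option autoImplicit false

namespace Pool.Agent.Results.MP_ad1693_nt.OneSidedExponents

open Pool.Agent.W263.BSD Filter Topology Classical MeasureTheory Set
open CongruenceSubgroup UpperHalfPlane
open scoped MatrixGroups

/-- `P(X)`: the product of `(N_p + 1) / p` over the primes `p ≤ X`, `p ∤ 2Δ`. -/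
noncomputable def product (a b : ℤ) (X : ℝ) : ℝ :=
  ∏ p ∈ (Finset.range (⌊X⌋₊ + 1)).filter (GoodPrime a b), (((pointCount a b p : ℝ) + 1) / p)

/-- `S_K(X)`: the sum of `K (log p / log X) log ((N_p + 1) / p)` over the primes `p ≤ X`, `p ∤ 2Δ`. -/
noncomputable def weighted (a b : ℤ) (K : ℝ → ℝ) (X : ℝ) : ℝ :=
  ∑ p ∈ (Finset.range (⌊X⌋₊ + 1)).filter (GoodPrime a b),
    K (Real.log p / Real.log X) * Real.log (((pointCount a b p : ℝ) + 1) / p)

/-- The `n`-th Fourier coefficient of `f`. -/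
noncomputable def coef {N : ℕ} (f : CuspForm (Gamma0 N : Subgroup (GL (Fin 2) ℝ)) 2) (n : ℕ) : ℂ :=
  (qExpansion 1 f).coeff n

/-- `f ∈ S_2(Γ₀(N))` is the newform of the elliptic curve `E : y² = x³ + a x + b` of conductor `N`: the
Fourier coefficients `c(n)` of `f` are real with `c(1) = 1`, they satisfy the Hecke relations
`c(mn) = c(m) c(n)` for coprime `m`, `n` and `c(p^(j+2)) = c(p) c(p^(j+1)) - p c(p^j)` (without the last
term if `p ∣ N`), `c(p) = a_p = p - N_p` (`N_p` affine points) for all primes `p ∤ 2Δ`, `|c(p)| ≤ 2 √p` for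
all `p ∤ N` (Hasse) and `c(p) = 0, 1, -1` for `p ∣ N`. -/
structure IsNewformOf (a b : ℤ) (N : ℕ) (f : CuspForm (Gamma0 N : Subgroup (GL (Fin 2) ℝ)) 2) :
    Prop where
  one : coef f 1 = 1
  real : ∀ n, (coef f n).im = 0
  mul : ∀ m n : ℕ, Nat.Coprime m n → coef f (m * n) = coef f m * coef f n
  pow : ∀ p j : ℕ, p.Prime → coef f (p ^ (j + 2)) = coef f p * coef f (p ^ (j + 1)) -
      (if p ∣ N then 0 else (p : ℂ) * coef f (p ^ j))
  points : ∀ p : ℕ, GoodPrime a b p → coef f p = (p : ℂ) - (pointCount a b p : ℂ)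
  good : ∀ p : ℕ, p.Prime → ¬ p ∣ N → ‖coef f p‖ ≤ 2 * Real.sqrt p
  bad : ∀ p : ℕ, p.Prime → p ∣ N → coef f p = 0 ∨ coef f p = 1 ∨ coef f p = -1

/-- `F` has no zeros with `Re s > 1 + y`. -/
def NoZeros (F : ℂ → ℂ) (y : ℝ) : Prop := ∀ s : ℂ, 1 + y < s.re → F s ≠ 0

/-- `F` has no real zeros `> 1 + y`. -/
def NoRealZeros (F : ℂ → ℂ) (y : ℝ) : Prop := ∀ x : ℝ, 1 + y < x → F x ≠ 0

/-- The statement `P` holds for almost all (Lebesgue measure) sufficiently large real numbers. -/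
def AlmostAllLarge (P : ℝ → Prop) : Prop := ∃ X₀ : ℝ, ∀ᵐ X : ℝ, X₀ ≤ X → P X

/-- `K` is almost everywhere `0` on `(α, β]`. -/
def Vanishes (K : ℝ → ℝ) (α β : ℝ) : Prop := ∀ᵐ u : ℝ, u ∈ Ioc α β → K u = 0

/-- `K` is almost everywhere nonnegative on `(α, β]` for some `α < β`. -/
def NonnegNear (K : ℝ → ℝ) (β : ℝ) : Prop := ∃ α < β, ∀ᵐ u : ℝ, u ∈ Ioc α β → 0 ≤ K u

/-- `K` is measurable and bounded on `(0, 1]` and `β ∈ (0, 1]` is the essential supremum of its support. -/
structure IsWeight (K : ℝ → ℝ) (β : ℝ) : Prop where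
  meas : Measurable K
  bdd : ∃ M : ℝ, ∀ u ∈ Ioc (0 : ℝ) 1, |K u| ≤ M
  pos : 0 < β
  le_one : β ≤ 1
  top : Vanishes K β 1
  sharp : ∀ α < β, ¬ Vanishes K α β

theorem hecke {a b : ℤ} {N : ℕ} {f : CuspForm (Gamma0 N : Subgroup (GL (Fin 2) ℝ)) 2}
    (hf : IsNewformOf a b N f) : Pool.Agent.TH941.Hecke f where
  one := hf.one
  real := hf.real
  mul := hf.mul
  pow := hf.pow
  good := hf.good
  bad := fun p hp h => by
    rcases hf.bad p hp h with h1 | h1 | h1
    · have h2 : ‖coef f p‖ ≤ 1 := by rw [h1]; simp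
      exact h2
    · have h2 : ‖coef f p‖ ≤ 1 := by rw [h1]; simp
      exact h2
    · have h2 : ‖coef f p‖ ≤ 1 := by rw [h1]; simp
      exact h2

theorem vanishes_iff (K : ℝ → ℝ) (α β : ℝ) : Vanishes K α β ↔ ∀ᵐ u : ℝ, u ∈ Ioo α β → K u = 0 := by
  unfold Vanishes
  constructor
  · intro h
    filter_upwards [h] with u h1 h2
    exact h1 ⟨h2.1, h2.2.le⟩
  · intro h
    have hne : ∀ᵐ u : ℝ, u ≠ β := by rw [ae_iff]; simp
    filter_upwards [h, hne] with u h1 h2 h3
    exact h1 ⟨h3.1, lt_of_le_of_ne h3.2 h2⟩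

/-- only the values of the weight on `(0, 1]` matter -/
theorem weighted_congr (a b : ℤ) {K K' : ℝ → ℝ} (h : ∀ u ∈ Ioc (0 : ℝ) 1, K u = K' u) (X : ℝ) :
    weighted a b K X = Pool.Agent.R429.DM.wtd a b K' X := by
  unfold weighted Pool.Agent.R429.DM.wtd
  refine Finset.sum_congr rfl fun p hp => ?_
  rw [Finset.mem_filter, Finset.mem_range] at hp
  have hp2 : 2 ≤ p := hp.2.1.two_le
  have hX : 0 ≤ X := by
    by_contra h
    push Not at h
    rw [Nat.floor_of_nonpos h.le] at hp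
    omega
  have hpX : (p : ℝ) ≤ X := by
    have h2 : (p : ℝ) ≤ (⌊X⌋₊ : ℝ) := by exact_mod_cast (by omega : p ≤ ⌊X⌋₊)
    exact h2.trans (Nat.floor_le hX)
  have hp1 : (1 : ℝ) < p := by exact_mod_cast (by omega : 1 < p)
  have h1 : 0 < Real.log p := Real.log_pos hp1
  have h2 : Real.log p ≤ Real.log X := Real.log_le_log (by linarith) hpX
  have h3 : 0 < Real.log X := by linarith
  rw [h]
  exact ⟨by positivity, by rw [div_le_one h3]; exact h2⟩

/-- the weight, extended by zero -/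
theorem ext_weight {K : ℝ → ℝ} {β : ℝ} (h : IsWeight K β) :
    ∃ (K' : ℝ → ℝ) (M : ℝ), (∀ u ∈ Ioc (0 : ℝ) 1, K u = K' u) ∧ Measurable K' ∧ (∀ u, |K' u| ≤ M) ∧
      (∀ᵐ u : ℝ, u ∈ Ioo β 1 → K' u = 0) ∧
      (∀ δ : ℝ, 0 < δ → ¬ ∀ᵐ u : ℝ, u ∈ Ioo (β - δ) β → K' u = 0) ∧
      (NonnegNear K β → ∃ α < β, ∀ᵐ u : ℝ, u ∈ Ioo α β → 0 ≤ K' u) := by
  obtain ⟨M, hM⟩ := h.bdd
  have hkk : ∀ u ∈ Ioc (0 : ℝ) 1, K u = (Ioc (0 : ℝ) 1).indicator K u := fun u hu =>
    (indicator_of_mem hu K).symm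
  have hβ0 := h.pos
  have hβ1 := h.le_one
  refine ⟨(Ioc (0 : ℝ) 1).indicator K, max M 0, hkk, h.meas.indicator measurableSet_Ioc,
    fun u => ?_, ?_, fun δ hδ h' => ?_, ?_⟩
  · by_cases hu : u ∈ Ioc (0 : ℝ) 1
    · rw [indicator_of_mem hu]
      exact (hM u hu).trans (le_max_left _ _)
    · rw [indicator_of_notMem hu, abs_zero]
      exact le_max_right _ _
  · have hv := h.top
    unfold Vanishes at hv
    filter_upwards [hv] with u h1 h2
    rw [← hkk u ⟨by linarith [h2.1], h2.2.le⟩]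
    exact h1 ⟨h2.1, h2.2.le⟩
  · refine h.sharp (max (β - δ) 0) (max_lt (by linarith) hβ0) ?_
    rw [vanishes_iff]
    filter_upwards [h'] with u h1 h2
    have h3 : β - δ < u := lt_of_le_of_lt (le_max_left _ _) h2.1
    have h4 : 0 < u := lt_of_le_of_lt (le_max_right _ _) h2.1
    rw [hkk u ⟨h4, by linarith [h2.2]⟩]
    exact h1 ⟨h3, h2.2⟩
  · rintro ⟨α, hα, h1⟩
    refine ⟨max α 0, max_lt hα hβ0, ?_⟩
    filter_upwards [h1] with u h2 h3
    rw [← hkk u ⟨lt_of_le_of_lt (le_max_right _ _) h3.1, by linarith [h3.2]⟩]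
    exact h2 ⟨lt_of_le_of_lt (le_max_left _ _) h3.1, h3.2.le⟩

theorem AlmostAllLarge.of_eventually {P : ℝ → Prop} (h : ∀ᶠ X : ℝ in atTop, P X) :
    AlmostAllLarge P := by
  obtain ⟨X₀, hX₀⟩ := eventually_atTop.1 h
  exact ⟨X₀, ae_of_all _ hX₀⟩

/-- an upper bound for all `X` gives the bound for large `X` without a constant -/
theorem absorb {f : ℝ → ℝ} {α : ℝ} (h : ∀ ε : ℝ, 0 < ε → ∃ C : ℝ, ∀ X : ℝ, 1 < X → |f X| ≤ C * X ^ (α + ε))
    {ε : ℝ} (hε : 0 < ε) : ∀ᶠ X : ℝ in atTop, |f X| ≤ X ^ (α + ε) := by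
  obtain ⟨C, hC⟩ := h (ε / 2) (by linarith)
  have h1 : ∀ᶠ X : ℝ in atTop, C ≤ X ^ (ε / 2) :=
    (tendsto_rpow_atTop (by linarith : 0 < ε / 2)).eventually_ge_atTop C
  filter_upwards [h1, eventually_ge_atTop 2] with X hX hX2
  have hX0 : 0 < X := by linarith
  calc |f X| ≤ C * X ^ (α + ε / 2) := hC X (by linarith)
    _ ≤ X ^ (ε / 2) * X ^ (α + ε / 2) :=
      mul_le_mul_of_nonneg_right hX (by positivity)
    _ = X ^ (α + ε) := by
      rw [← Real.rpow_add hX0]
      congr 1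
      ring

/-- the bounds of the sums of an elliptic curve in a zero-free half plane -/
theorem up {a b : ℤ} (hΔ : 4 * a ^ 3 + 27 * b ^ 2 ≠ 0) {F : ℂ → ℂ} (hF : IsLSeries a b F)
    {N : ℕ} [NeZero N] {f : CuspForm (Gamma0 N : Subgroup (GL (Fin 2) ℝ)) 2}
    (hf : IsNewformOf a b N f) {K : ℝ → ℝ} (hK : BoundedVariationOn K (Icc 0 1)) {β y : ℝ}
    (hβ0 : 0 < β) (hy : 0 ≤ y) (hv : ∀ u ∈ Ioc β 1, K u = 0) (hz : NoZeros F y) {ε : ℝ} (hε : 0 < ε) :
    ∀ᶠ X : ℝ in atTop, |weighted a b K X| ≤ X ^ (β * y + ε) := by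
  refine absorb (fun ε hε => ?_) hε
  obtain ⟨C, hC⟩ := Pool.Agent.R429.DM.Up.curve_bv hF
    (Pool.Agent.TH942.RZ.growth_newform hΔ hF (hecke hf) hf.points) hK hβ0 hv hy hz hε
  refine ⟨C, fun X hX => ?_⟩
  rw [weighted_congr a b (K' := K) fun u _ => rfl]
  exact hC X hX

/-- the constant weight belongs to the product -/
theorem log_product (a b : ℤ) (X : ℝ) :
    0 < product a b X ∧ Real.log (product a b X) = weighted a b (fun _ => 1) X := by
  have hpos : ∀ p ∈ (Finset.range (⌊X⌋₊ + 1)).filter (GoodPrime a b),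
      0 < ((pointCount a b p : ℝ) + 1) / p := by
    intro p hp
    rw [Finset.mem_filter] at hp
    have h1 : (0 : ℝ) < p := by exact_mod_cast hp.2.1.pos
    positivity
  refine ⟨Finset.prod_pos hpos, ?_⟩
  unfold product weighted
  rw [Real.log_prod fun p hp => (hpos p hp).ne']
  exact Finset.sum_congr rfl fun p _ => by rw [one_mul]

theorem product_le (a b : ℤ) (X t : ℝ) :
    product a b X ≤ Real.exp t ↔ weighted a b (fun _ => 1) X ≤ t := by
  obtain ⟨h1, h2⟩ := log_product a b X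
  rw [← h2, Real.log_le_iff_le_exp h1]

theorem le_product (a b : ℤ) (X t : ℝ) :
    Real.exp t ≤ product a b X ↔ t ≤ weighted a b (fun _ => 1) X := by
  obtain ⟨h1, h2⟩ := log_product a b X
  rw [← h2, Real.le_log_iff_exp_le h1]

theorem one_weight : IsWeight (fun _ => 1) 1 := by
  refine ⟨measurable_const, ⟨1, fun u _ => by simp⟩, one_pos, le_rfl, ?_, fun α hα h => ?_⟩
  · exact ae_of_all _ fun u hu => absurd hu.1 (not_lt.2 hu.2)
  · unfold Vanishes at h
    rw [ae_iff] at h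
    have h2 : Ioc α 1 ⊆ {u : ℝ | ¬ (u ∈ Ioc α 1 → (fun _ : ℝ => (1 : ℝ)) u = 0)} := by
      intro u hu
      simp only [mem_ofPred_eq, Classical.not_imp]
      exact ⟨hu, one_ne_zero⟩
    have h3 := measure_mono_null h2 h
    rw [Real.volume_Ioc, ENNReal.ofReal_eq_zero] at h3
    linarith

/-- **The size of the original product of Birch and Swinnerton-Dyer is decided by one-sided bounds.** -/
theorem result (a b : ℤ) (hΔ : 4 * a ^ 3 + 27 * b ^ 2 ≠ 0) (F : ℂ → ℂ) (hF : IsLSeries a b F)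
    (N : ℕ) [NeZero N] (f : CuspForm (Gamma0 N : Subgroup (GL (Fin 2) ℝ)) 2)
    (hf : IsNewformOf a b N f) (y : ℝ) (hy : 0 ≤ y) :
    -- the product from above
    List.TFAE [
      NoZeros F y,
      ∀ ε : ℝ, 0 < ε → ∀ᶠ X : ℝ in atTop, product a b X ≤ Real.exp (X ^ (y + ε)),
      ∀ ε : ℝ, 0 < ε → AlmostAllLarge fun X : ℝ => product a b X ≤ Real.exp (X ^ (y + ε))] ∧
    -- the product from below
    List.TFAE [
      NoZeros F y,
      NoRealZeros F y ∧
        ∀ ε : ℝ, 0 < ε → ∀ᶠ X : ℝ in atTop, Real.exp (-X ^ (y + ε)) ≤ product a b X,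
      NoRealZeros F y ∧
        ∀ ε : ℝ, 0 < ε → AlmostAllLarge fun X : ℝ => Real.exp (-X ^ (y + ε)) ≤ product a b X] ∧
    -- all weights
    ∀ (K : ℝ → ℝ) (β : ℝ), IsWeight K β →
      (NonnegNear K β ∨ NoRealZeros F y →
        (∀ ε : ℝ, 0 < ε → AlmostAllLarge fun X : ℝ => weighted a b K X ≤ X ^ (β * y + ε)) →
        NoZeros F y) ∧
      (NoRealZeros F y →
        (∀ ε : ℝ, 0 < ε → AlmostAllLarge fun X : ℝ => -X ^ (β * y + ε) ≤ weighted a b K X) →
        NoZeros F y) ∧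
      (BoundedVariationOn K (Icc 0 1) → (∀ u ∈ Ioc β 1, K u = 0) →
        (NonnegNear K β → (NoZeros F y ↔ ∀ ε : ℝ, 0 < ε →
          AlmostAllLarge fun X : ℝ => weighted a b K X ≤ X ^ (β * y + ε))) ∧
        (NoZeros F y ↔ NoRealZeros F y ∧ ∀ ε : ℝ, 0 < ε →
          AlmostAllLarge fun X : ℝ => weighted a b K X ≤ X ^ (β * y + ε)) ∧
        (NoZeros F y ↔ NoRealZeros F y ∧ ∀ ε : ℝ, 0 < ε →
          AlmostAllLarge fun X : ℝ => -X ^ (β * y + ε) ≤ weighted a b K X)) := by
  have hno : NoZeros F y → NoRealZeros F y := fun h x hx => h x (by simpa using hx)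
  have hup : ∀ (K : ℝ → ℝ) (β : ℝ), IsWeight K β → NonnegNear K β ∨ NoRealZeros F y →
      (∀ ε : ℝ, 0 < ε → AlmostAllLarge fun X : ℝ => weighted a b K X ≤ X ^ (β * y + ε)) →
      NoZeros F y := by
    intro K β hK hcase h
    obtain ⟨K', M, e1, e2, e3, e4, e5, e7⟩ := ext_weight hK
    simp only [weighted_congr a b e1] at h
    exact Pool.Agent.R429.DM.wtd_up_zero_free hF e2 e3 hy hK.pos hK.le_one e4 e5
      (hcase.imp e7 id) h
  have hdown : ∀ (K : ℝ → ℝ) (β : ℝ), IsWeight K β → NoRealZeros F y →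
      (∀ ε : ℝ, 0 < ε → AlmostAllLarge fun X : ℝ => -X ^ (β * y + ε) ≤ weighted a b K X) →
      NoZeros F y := by
    intro K β hK hr h
    obtain ⟨K', M, e1, e2, e3, e4, e5, e7⟩ := ext_weight hK
    simp only [weighted_congr a b e1] at h
    exact Pool.Agent.R429.DM.wtd_down_zero_free hF e2 e3 hy hK.pos hK.le_one e4 e5 hr h
  have hbv1 : BoundedVariationOn (fun _ : ℝ => (1 : ℝ)) (Icc 0 1) :=
    MonotoneOn.boundedVariationOn (C := 1) (fun u _ v _ _ => le_rfl) (fun u _ => by simp)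
  have hone : NoZeros F y → ∀ ε : ℝ, 0 < ε → ∀ᶠ X : ℝ in atTop,
      |weighted a b (fun _ => 1) X| ≤ X ^ (y + ε) := by
    intro hz ε hε
    have := up hΔ hF hf hbv1 one_pos hy (fun u hu => absurd hu.1 (not_lt.2 hu.2)) hz hε
    simpa using this
  refine ⟨?_, ?_, fun K β hK => ⟨hup K β hK, hdown K β hK, fun hbv hv => ⟨fun hn => ?_, ?_, ?_⟩⟩⟩
  · tfae_have 1 → 2 := by
      intro hz ε hε
      filter_upwards [hone hz ε hε] with X hX
      rw [product_le]
      exact (le_abs_self _).trans hX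
    tfae_have 2 → 3 := fun h ε hε => AlmostAllLarge.of_eventually (h ε hε)
    tfae_have 3 → 1 := by
      intro h
      refine hup (fun _ => 1) 1 one_weight (Or.inl ⟨0, one_pos, ae_of_all _ fun u _ => zero_le_one⟩)
        fun ε hε => ?_
      obtain ⟨X₀, hX₀⟩ := h ε hε
      refine ⟨X₀, ?_⟩
      filter_upwards [hX₀] with X h1 h2
      rw [one_mul, ← product_le]
      exact h1 h2
    tfae_finish
  · tfae_have 1 → 2 := by
      intro hz
      refine ⟨hno hz, fun ε hε => ?_⟩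
      filter_upwards [hone hz ε hε] with X hX
      rw [le_product]
      linarith [(abs_le.1 hX).1]
    tfae_have 2 → 3 := fun h => ⟨h.1, fun ε hε => AlmostAllLarge.of_eventually (h.2 ε hε)⟩
    tfae_have 3 → 1 := by
      rintro ⟨hr, h⟩
      refine hdown (fun _ => 1) 1 one_weight hr fun ε hε => ?_
      obtain ⟨X₀, hX₀⟩ := h ε hε
      refine ⟨X₀, ?_⟩
      filter_upwards [hX₀] with X h1 h2
      rw [one_mul, ← le_product]
      exact h1 h2
    tfae_finish
  · refine ⟨fun hz ε hε => AlmostAllLarge.of_eventually ?_, hup K β hK (Or.inl hn)⟩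
    filter_upwards [up hΔ hF hf hbv hK.pos hy hv hz hε] with X hX
    exact (le_abs_self _).trans hX
  · refine ⟨fun hz => ⟨hno hz, fun ε hε => AlmostAllLarge.of_eventually ?_⟩,
      fun h => hup K β hK (Or.inr h.1) h.2⟩
    filter_upwards [up hΔ hF hf hbv hK.pos hy hv hz hε] with X hX
    exact (le_abs_self _).trans hX
  · refine ⟨fun hz => ⟨hno hz, fun ε hε => AlmostAllLarge.of_eventually ?_⟩,
      fun h => hdown K β hK h.1 h.2⟩
    filter_upwards [up hΔ hF hf hbv hK.pos hy hv hz hε] with X hX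
    linarith [(abs_le.1 hX).1]

end Pool.Agent.Results.MP_ad1693_nt.OneSidedExponents
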